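import Pool.Agent.D0H44.DM.Stm2

set_option autoImplicit false

/-! Module FD of project DM (helper44): the derivative of the even powers of the modulus of zeta on the critical line. -/

namespace Pool.Agent.D0H22.DM

open MeasureTheory Set Filter Topology Pool.Agent.D0H44.DM
open scoped ComplexConjugate RealInnerProductSpace

noncomputable section

theorem line_ne (t : ℝ) : (1 / 2 + Complex.I * t : ℂ) ≠ 1 := by
  intro h
  have h1 := congrArg Complex.re h
  simp at h1

theorem hd_zl (t : ℝ) : HasDerivAt zl (zd t * Complex.I) t := by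
  have h1 : HasDerivAt (fun v : ℝ => (1 / 2 + Complex.I * (v : ℂ))) Complex.I t := by
    have h1 : HasDerivAt (fun v : ℝ => (v : ℂ)) 1 t := Complex.ofRealCLM.hasDerivAt
    simpa using (h1.const_mul Complex.I).const_add (1 / 2)
  have h2 : HasDerivAt riemannZeta (deriv riemannZeta (1 / 2 + Complex.I * t)) (1 / 2 + Complex.I * t) :=
    (differentiableAt_riemannZeta (line_ne t)).hasDerivAt
  exact HasDerivAt.comp t h2 h1

theorem zd_cont : Continuous zd := by
  have h1 : DifferentiableOn ℂ riemannZeta {s : ℂ | s ≠ 1} := fun s hs =>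
    (differentiableAt_riemannZeta hs).differentiableWithinAt
  have ho : IsOpen {s : ℂ | s ≠ 1} := isOpen_ne
  have h2 := h1.deriv ho
  refine continuous_iff_continuousAt.2 fun t => ?_
  have h3 : ContinuousAt (deriv riemannZeta) (1 / 2 + Complex.I * t) :=
    (h2.differentiableAt (ho.mem_nhds (line_ne t))).continuousAt
  exact ContinuousAt.comp (f := fun u : ℝ => (1 / 2 + Complex.I * (u : ℂ))) h3 (by fun_prop)

theorem zl_cont : Continuous zl := continuous_iff_continuousAt.2 fun t => (hd_zl t).continuousAt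

/-- the derivative -/
def gd (k : ℕ) (t : ℝ) : ℝ := k * (‖zl t‖ ^ 2) ^ (k - 1) * (2 * ⟪zl t, zd t * Complex.I⟫)

theorem hd_pow (k : ℕ) (t : ℝ) : HasDerivAt (fun t : ℝ => ‖zl t‖ ^ (2 * k)) (gd k t) t := by
  have h1 := (hd_zl t).norm_sq
  have h2 := h1.pow k
  have e : (fun t : ℝ => ‖zl t‖ ^ (2 * k)) = fun t : ℝ => (‖zl t‖ ^ 2) ^ k := by
    funext t
    rw [pow_mul]
  rw [e]
  exact h2

theorem t_FD : S_FD := by
  intro k hk
  refine ⟨?_, zd_cont, 4 * k ^ 2, by positivity, fun t => ?_⟩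
  · rw [contDiff_one_iff_deriv]
    refine ⟨fun t => (hd_pow k t).differentiableAt, ?_⟩
    have e : deriv (fun t : ℝ => ‖zl t‖ ^ (2 * k)) = gd k := funext fun t => (hd_pow k t).deriv
    rw [e]
    unfold gd
    have h1 := zl_cont
    have h2 := zd_cont
    exact (continuous_const.mul ((h1.norm.pow 2).pow (k - 1))).mul
      (continuous_const.mul (h1.inner (h2.mul continuous_const)))
  · rw [(hd_pow k t).deriv]
    set a := ‖zl t‖ with ha
    set b := ‖zd t‖ with hb
    have ha0 : 0 ≤ a := norm_nonneg _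
    have hb0 : 0 ≤ b := norm_nonneg _
    have h1 : |⟪zl t, zd t * Complex.I⟫| ≤ a * b := by
      refine (abs_real_inner_le_norm _ _).trans (le_of_eq ?_)
      rw [norm_mul, Complex.norm_I, mul_one]
    have h2 : gd k t ^ 2 = 4 * k ^ 2 * ((a ^ 2) ^ (k - 1)) ^ 2 * |⟪zl t, zd t * Complex.I⟫| ^ 2 := by
      unfold gd
      rw [sq_abs, ← ha]
      ring
    have h3 : |⟪zl t, zd t * Complex.I⟫| ^ 2 ≤ (a * b) ^ 2 := pow_le_pow_left₀ (abs_nonneg _) h1 2
    have h4 : ((a ^ 2) ^ (k - 1)) ^ 2 * (a * b) ^ 2 ≤ a ^ (4 * k) + b ^ (4 * k) := by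
      have e1 : ((a ^ 2) ^ (k - 1)) ^ 2 * (a * b) ^ 2 = a ^ (4 * k - 2) * b ^ 2 := by
        rw [← pow_mul, ← pow_mul, mul_pow, ← mul_assoc, ← pow_add]
        congr 2
        omega
      rw [e1]
      have e2 : ∀ x : ℝ, x ^ (4 * k) = x ^ (4 * k - 2) * x ^ 2 := by
        intro x
        rw [← pow_add]
        congr 1
        omega
      rcases le_total a b with h | h
      · calc a ^ (4 * k - 2) * b ^ 2 ≤ b ^ (4 * k - 2) * b ^ 2 :=
              mul_le_mul_of_nonneg_right (pow_le_pow_left₀ ha0 h _) (by positivity)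
          _ = b ^ (4 * k) := (e2 b).symm
          _ ≤ _ := le_add_of_nonneg_left (by positivity)
      · calc a ^ (4 * k - 2) * b ^ 2 ≤ a ^ (4 * k - 2) * a ^ 2 :=
              mul_le_mul_of_nonneg_left (pow_le_pow_left₀ hb0 h 2) (by positivity)
          _ = a ^ (4 * k) := (e2 a).symm
          _ ≤ _ := le_add_of_nonneg_right (by positivity)
    rw [h2]
    calc 4 * (k : ℝ) ^ 2 * ((a ^ 2) ^ (k - 1)) ^ 2 * |⟪zl t, zd t * Complex.I⟫| ^ 2
        ≤ 4 * (k : ℝ) ^ 2 * ((a ^ 2) ^ (k - 1)) ^ 2 * (a * b) ^ 2 :=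
          mul_le_mul_of_nonneg_left h3 (by positivity)
      _ = 4 * (k : ℝ) ^ 2 * (((a ^ 2) ^ (k - 1)) ^ 2 * (a * b) ^ 2) := by ring
      _ ≤ _ := mul_le_mul_of_nonneg_left h4 (by positivity)

end

end Pool.Agent.D0H22.DM
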